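import Pool.Agent.H69.SFA.Pc

/-!
# [H99 SFA Jts] THEOREM SF, clause (4), chapter K3: `Jets` is recursively enumerable
-/

namespace Pool.Agent.H99.SFA

open Pool.Agent.H8.Siegel Pool.Agent.H69.AL Pool.Agent.H98.AL Pool.Agent.H85.SA Pool.Agent.H69.SFA

variable {α : Type*} [Primcodable α]

theorem uc_zero : UC fun _ : α => (0 : Polynomial ℤ) := ⟨fun _ => [], Primrec.const _, fun _ => by simp [uni]⟩

theorem uc_ite {c : α → Prop} (hc : PrimrecPred c) [DecidablePred c] {F G : α → Polynomial ℤ} (hF : UC F) (hG : UC G) :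
    UC fun a => if c a then F a else G a := by
  obtain ⟨f, hf, e⟩ := hF
  obtain ⟨g, hg, e'⟩ := hG
  refine ⟨fun a => if c a then f a else g a, Primrec.ite hc hf hg, fun a => ?_⟩
  beta_reduce
  by_cases h : c a
  · rw [if_pos h, if_pos h, e]
  · rw [if_neg h, if_neg h, e']

/-- the innermost condition -/
theorem sr_A {M ro : α → Polynomial ℤ} {w b : α → ℕ → Polynomial ℤ} {m l : α → ℕ} {μ ν : α → ℤ} {c : α → Prop}
    [DecidablePred c] (hM : UC M) (hro : UC ro) (hw : UC fun p : α × ℕ => w p.1 p.2) (hb : UC fun p : α × ℕ => b p.1 p.2)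
    (hm : Primrec m) (hl : Primrec l) (hμ : IC μ) (hν : IC ν) (hc : PrimrecPred c) :
    SR fun a => ∃ (κ : ℤ) (R : Polynomial ℤ), κ ≠ 0 ∧
      Polynomial.C κ * ((∑ k ∈ Finset.range (m a), w a k * hmu (b a k) (l a) (ro a) (μ a)) -
        if c a then Polynomial.C (ν a) else 0) = M a * R := by
  refine SR.exI (P := fun a κ => ∃ R : Polynomial ℤ, κ ≠ 0 ∧
      Polynomial.C κ * ((∑ k ∈ Finset.range (m a), w a k * hmu (b a k) (l a) (ro a) (μ a)) -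
        if c a then Polynomial.C (ν a) else 0) = M a * R) ?_
  refine SR.exU (P := fun (p : α × (ℕ × ℕ)) (R : Polynomial ℤ) => iv p.2 ≠ 0 ∧
      Polynomial.C (iv p.2) * ((∑ k ∈ Finset.range (m p.1), w p.1 k * hmu (b p.1 k) (l p.1) (ro p.1) (μ p.1)) -
        if c p.1 then Polynomial.C (ν p.1) else 0) = M p.1 * R) ?_
  have h0 : UC fun a => ∑ k ∈ Finset.range (m a), w a k * hmu (b a k) (l a) (ro a) (μ a) :=
    UC.sum (F := fun a k => w a k * hmu (b a k) (l a) (ro a) (μ a))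
      (hw.mul (hb.hmu (hl.comp Primrec.fst) (hro.comp Primrec.fst) (hμ.comp Primrec.fst))) hm
  have h1 : UC fun a => if c a then Polynomial.C (ν a) else 0 := uc_ite hc (UC.C hν) uc_zero
  have i1 : Primrec fun p : (α × (ℕ × ℕ)) × Code => p.1.1 := Primrec.fst.comp Primrec.fst
  have i2 : IC fun p : (α × (ℕ × ℕ)) × Code => iv p.1.2 := IC.code (Primrec.snd.comp Primrec.fst)
  exact SR.of_prim ((i2.ne (IC.const 0)).and
    (((UC.C i2).mul ((h0.comp i1).sub (h1.comp i1))).eq ((hM.comp i1).mul (UC.code Primrec.snd))))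

/-- the conditions of one target -/
theorem sr_B {M : α → Polynomial ℤ} {ro w : α → ℕ → Polynomial ℤ} {b : α → ℕ → ℕ → ℕ → Polynomial ℤ}
    {n s W m l i0 j0 i1 u1 : α → ℕ} {μ ν : α → ℤ} (hM : UC M) (hro : UC fun p : α × ℕ => ro p.1 p.2)
    (hw : UC fun p : α × ℕ => w p.1 p.2) (hb : UC fun p : α × ℕ × ℕ × ℕ => b p.1 p.2.1 p.2.2.1 p.2.2.2)
    (hn : Primrec n) (hs : Primrec s) (hW : Primrec W) (hm : Primrec m) (hl : Primrec l) (hi0 : Primrec i0)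
    (hj0 : Primrec j0) (hi1 : Primrec i1) (hu1 : Primrec u1) (hμ : IC μ) (hν : IC ν) :
    SR fun a => ∀ j < n a, j / bs (n a) (i0 a) = j0 a / bs (n a) (i0 a) → ∀ i < s a, ∀ u < i0 a * W a,
      ∃ (κ : ℤ) (R : Polynomial ℤ), κ ≠ 0 ∧
        Polynomial.C κ * ((∑ k ∈ Finset.range (m a), w a k * hmu (b a k i u) (l a) (ro a j) (μ a)) -
          if j = j0 a ∧ i = i1 a ∧ u = u1 a then Polynomial.C (ν a) else 0) = M a * R := by
  have hbs : Primrec fun a => bs (n a) (i0 a) := by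
    unfold bs
    exact Primrec.nat_div.comp (Primrec.nat_sub.comp (Primrec.nat_add.comp hn hi0) (Primrec.const 1)) hi0
  refine SR.all (P := fun a j => j / bs (n a) (i0 a) = j0 a / bs (n a) (i0 a) → ∀ i < s a, ∀ u < i0 a * W a,
      ∃ (κ : ℤ) (R : Polynomial ℤ), κ ≠ 0 ∧
        Polynomial.C κ * ((∑ k ∈ Finset.range (m a), w a k * hmu (b a k i u) (l a) (ro a j) (μ a)) -
          if j = j0 a ∧ i = i1 a ∧ u = u1 a then Polynomial.C (ν a) else 0) = M a * R) ?_ hn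
  refine SR.imp (PrimrecRel.comp Primrec.eq (Primrec.nat_div.comp Primrec.snd (hbs.comp Primrec.fst))
    (Primrec.nat_div.comp (hj0.comp Primrec.fst) (hbs.comp Primrec.fst))) ?_
  refine SR.all (P := fun (p : α × ℕ) i => ∀ u < i0 p.1 * W p.1,
      ∃ (κ : ℤ) (R : Polynomial ℤ), κ ≠ 0 ∧
        Polynomial.C κ * ((∑ k ∈ Finset.range (m p.1), w p.1 k * hmu (b p.1 k i u) (l p.1) (ro p.1 p.2) (μ p.1)) -
          if p.2 = j0 p.1 ∧ i = i1 p.1 ∧ u = u1 p.1 then Polynomial.C (ν p.1) else 0) = M p.1 * R) ?_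
    (hs.comp Primrec.fst)
  refine SR.all (P := fun (p : (α × ℕ) × ℕ) u =>
      ∃ (κ : ℤ) (R : Polynomial ℤ), κ ≠ 0 ∧
        Polynomial.C κ * ((∑ k ∈ Finset.range (m p.1.1),
            w p.1.1 k * hmu (b p.1.1 k p.2 u) (l p.1.1) (ro p.1.1 p.1.2) (μ p.1.1)) -
          if p.1.2 = j0 p.1.1 ∧ p.2 = i1 p.1.1 ∧ u = u1 p.1.1 then Polynomial.C (ν p.1.1) else 0) = M p.1.1 * R) ?_
    ((Primrec.nat_mul.comp hi0 hW).comp (Primrec.fst.comp Primrec.fst))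
  have g3 : Primrec fun p : ((α × ℕ) × ℕ) × ℕ => p.1.1.1 := Primrec.fst.comp (Primrec.fst.comp Primrec.fst)
  have gj : Primrec fun p : ((α × ℕ) × ℕ) × ℕ => p.1.1.2 := Primrec.snd.comp (Primrec.fst.comp Primrec.fst)
  have gi : Primrec fun p : ((α × ℕ) × ℕ) × ℕ => p.1.2 := Primrec.snd.comp Primrec.fst
  have gu : Primrec fun p : ((α × ℕ) × ℕ) × ℕ => p.2 := Primrec.snd
  have g4 : Primrec fun p : (((α × ℕ) × ℕ) × ℕ) × ℕ => p.1.1.1.1 := g3.comp Primrec.fst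
  refine sr_A (α := ((α × ℕ) × ℕ) × ℕ) (M := fun p => M p.1.1.1) (ro := fun p => ro p.1.1.1 p.1.1.2)
    (w := fun p k => w p.1.1.1 k) (b := fun p k => b p.1.1.1 k p.1.2 p.2) (m := fun p => m p.1.1.1)
    (l := fun p => l p.1.1.1) (μ := fun p => μ p.1.1.1) (ν := fun p => ν p.1.1.1)
    (c := fun p => p.1.1.2 = j0 p.1.1.1 ∧ p.1.2 = i1 p.1.1.1 ∧ p.2 = u1 p.1.1.1)
    (hM.comp g3) (hro.comp (Primrec.pair g3 gj)) (hw.comp (Primrec.pair g4 Primrec.snd)) ?_ (hm.comp g3)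
    (hl.comp g3) (hμ.comp g3) (hν.comp g3) ?_
  · exact hb.comp (Primrec.pair g4 (Primrec.pair Primrec.snd (Primrec.pair (gi.comp Primrec.fst)
      (gu.comp Primrec.fst))))
  · exact (PrimrecRel.comp Primrec.eq gj (hj0.comp g3)).and ((PrimrecRel.comp Primrec.eq gi (hi1.comp g3)).and
      (PrimrecRel.comp Primrec.eq gu (hu1.comp g3)))

/-- one target -/
theorem sr_C {M : α → Polynomial ℤ} {ro : α → ℕ → Polynomial ℤ} {b : α → ℕ → ℕ → ℕ → Polynomial ℤ}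
    {n s W m l i0 j0 i1 u1 : α → ℕ} {μ : α → ℤ} (hM : UC M) (hro : UC fun p : α × ℕ => ro p.1 p.2)
    (hb : UC fun p : α × ℕ × ℕ × ℕ => b p.1 p.2.1 p.2.2.1 p.2.2.2)
    (hn : Primrec n) (hs : Primrec s) (hW : Primrec W) (hm : Primrec m) (hl : Primrec l) (hi0 : Primrec i0)
    (hj0 : Primrec j0) (hi1 : Primrec i1) (hu1 : Primrec u1) (hμ : IC μ) :
    SR fun a => ∃ (w : ℕ → Polynomial ℤ) (ν : ℤ), ν ≠ 0 ∧
      ∀ j < n a, j / bs (n a) (i0 a) = j0 a / bs (n a) (i0 a) → ∀ i < s a, ∀ u < i0 a * W a,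
      ∃ (κ : ℤ) (R : Polynomial ℤ), κ ≠ 0 ∧
        Polynomial.C κ * ((∑ k ∈ Finset.range (m a), w k * hmu (b a k i u) (l a) (ro a j) (μ a)) -
          if j = j0 a ∧ i = i1 a ∧ u = u1 a then Polynomial.C ν else 0) = M a * R := by
  refine SR.exUf (P := fun a w => ∃ (ν : ℤ), ν ≠ 0 ∧
      ∀ j < n a, j / bs (n a) (i0 a) = j0 a / bs (n a) (i0 a) → ∀ i < s a, ∀ u < i0 a * W a,
      ∃ (κ : ℤ) (R : Polynomial ℤ), κ ≠ 0 ∧
        Polynomial.C κ * ((∑ k ∈ Finset.range (m a), w k * hmu (b a k i u) (l a) (ro a j) (μ a)) -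
          if j = j0 a ∧ i = i1 a ∧ u = u1 a then Polynomial.C ν else 0) = M a * R) m ?_ ?_
  · rintro a f g hfg ⟨ν, hν, h⟩
    refine ⟨ν, hν, fun j hj hjj i hi u hu => ?_⟩
    obtain ⟨κ, R, hκ, e⟩ := h j hj hjj i hi u hu
    refine ⟨κ, R, hκ, ?_⟩
    rw [← e]
    congr 2
    exact Finset.sum_congr rfl fun k hk => by rw [hfg k (Finset.mem_range.1 hk)]
  refine SR.exI (P := fun (p : α × List Code) ν => ν ≠ 0 ∧
      ∀ j < n p.1, j / bs (n p.1) (i0 p.1) = j0 p.1 / bs (n p.1) (i0 p.1) → ∀ i < s p.1, ∀ u < i0 p.1 * W p.1,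
      ∃ (κ : ℤ) (R : Polynomial ℤ), κ ≠ 0 ∧
        Polynomial.C κ * ((∑ k ∈ Finset.range (m p.1),
            uni (nth p.2 k) * hmu (b p.1 k i u) (l p.1) (ro p.1 j) (μ p.1)) -
          if j = j0 p.1 ∧ i = i1 p.1 ∧ u = u1 p.1 then Polynomial.C ν else 0) = M p.1 * R) ?_
  have f2 : Primrec fun p : (α × List Code) × (ℕ × ℕ) => p.1.1 := Primrec.fst.comp Primrec.fst
  have fν : IC fun p : (α × List Code) × (ℕ × ℕ) => iv p.2 := IC.code Primrec.snd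
  refine (SR.of_prim (fν.ne (IC.const 0))).and ?_
  refine sr_B (α := (α × List Code) × (ℕ × ℕ)) (M := fun p => M p.1.1) (ro := fun p => ro p.1.1)
    (w := fun p k => uni (nth p.1.2 k)) (b := fun p => b p.1.1) (n := fun p => n p.1.1) (s := fun p => s p.1.1)
    (W := fun p => W p.1.1) (m := fun p => m p.1.1) (l := fun p => l p.1.1) (i0 := fun p => i0 p.1.1)
    (j0 := fun p => j0 p.1.1) (i1 := fun p => i1 p.1.1) (u1 := fun p => u1 p.1.1) (μ := fun p => μ p.1.1)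
    (ν := fun p => iv p.2)
    (hM.comp f2) (hro.comp (Primrec.pair (f2.comp Primrec.fst) Primrec.snd)) ?_
    (hb.comp (Primrec.pair (f2.comp Primrec.fst) Primrec.snd)) (hn.comp f2) (hs.comp f2) (hW.comp f2)
    (hm.comp f2) (hl.comp f2) (hi0.comp f2) (hj0.comp f2) (hi1.comp f2) (hu1.comp f2) (hμ.comp f2) fν
  exact UC.code (primrec_nth.comp (Primrec.snd.comp (Primrec.fst.comp Primrec.fst)) Primrec.snd)

/-- all targets -/
theorem sr_D {M : α → Polynomial ℤ} {ro : α → ℕ → Polynomial ℤ} {b : α → ℕ → ℕ → ℕ → Polynomial ℤ}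
    {n s W m l : α → ℕ} {μ : α → ℤ} (hM : UC M) (hro : UC fun p : α × ℕ => ro p.1 p.2)
    (hb : UC fun p : α × ℕ × ℕ × ℕ => b p.1 p.2.1 p.2.2.1 p.2.2.2)
    (hn : Primrec n) (hs : Primrec s) (hW : Primrec W) (hm : Primrec m) (hl : Primrec l) (hμ : IC μ) :
    SR fun a => ∀ i₀, 1 ≤ i₀ → i₀ ≤ 4 → ∀ j₀ < n a, ∀ i₁ < s a, ∀ u₁ < i₀ * W a,
      ∃ (w : ℕ → Polynomial ℤ) (ν : ℤ), ν ≠ 0 ∧
      ∀ j < n a, j / bs (n a) i₀ = j₀ / bs (n a) i₀ → ∀ i < s a, ∀ u < i₀ * W a,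
      ∃ (κ : ℤ) (R : Polynomial ℤ), κ ≠ 0 ∧
        Polynomial.C κ * ((∑ k ∈ Finset.range (m a), w k * hmu (b a k i u) (l a) (ro a j) (μ a)) -
          if j = j₀ ∧ i = i₁ ∧ u = u₁ then Polynomial.C ν else 0) = M a * R := by
  have key : SR fun a => ∀ i₀ < 5, 1 ≤ i₀ → ∀ j₀ < n a, ∀ i₁ < s a, ∀ u₁ < i₀ * W a,
      ∃ (w : ℕ → Polynomial ℤ) (ν : ℤ), ν ≠ 0 ∧
      ∀ j < n a, j / bs (n a) i₀ = j₀ / bs (n a) i₀ → ∀ i < s a, ∀ u < i₀ * W a,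
      ∃ (κ : ℤ) (R : Polynomial ℤ), κ ≠ 0 ∧
        Polynomial.C κ * ((∑ k ∈ Finset.range (m a), w k * hmu (b a k i u) (l a) (ro a j) (μ a)) -
          if j = j₀ ∧ i = i₁ ∧ u = u₁ then Polynomial.C ν else 0) = M a * R := by
    refine SR.all (P := fun a i₀ => 1 ≤ i₀ → ∀ j₀ < n a, ∀ i₁ < s a, ∀ u₁ < i₀ * W a,
      ∃ (w : ℕ → Polynomial ℤ) (ν : ℤ), ν ≠ 0 ∧
      ∀ j < n a, j / bs (n a) i₀ = j₀ / bs (n a) i₀ → ∀ i < s a, ∀ u < i₀ * W a,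
      ∃ (κ : ℤ) (R : Polynomial ℤ), κ ≠ 0 ∧
        Polynomial.C κ * ((∑ k ∈ Finset.range (m a), w k * hmu (b a k i u) (l a) (ro a j) (μ a)) -
          if j = j₀ ∧ i = i₁ ∧ u = u₁ then Polynomial.C ν else 0) = M a * R) ?_ (Primrec.const 5)
    refine SR.imp (PrimrecRel.comp Primrec.nat_le (Primrec.const 1) Primrec.snd) ?_
    refine SR.all (P := fun (p : α × ℕ) j₀ => ∀ i₁ < s p.1, ∀ u₁ < p.2 * W p.1,
      ∃ (w : ℕ → Polynomial ℤ) (ν : ℤ), ν ≠ 0 ∧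
      ∀ j < n p.1, j / bs (n p.1) p.2 = j₀ / bs (n p.1) p.2 → ∀ i < s p.1, ∀ u < p.2 * W p.1,
      ∃ (κ : ℤ) (R : Polynomial ℤ), κ ≠ 0 ∧
        Polynomial.C κ * ((∑ k ∈ Finset.range (m p.1), w k * hmu (b p.1 k i u) (l p.1) (ro p.1 j) (μ p.1)) -
          if j = j₀ ∧ i = i₁ ∧ u = u₁ then Polynomial.C ν else 0) = M p.1 * R) ?_ (hn.comp Primrec.fst)
    refine SR.all (P := fun (p : (α × ℕ) × ℕ) i₁ => ∀ u₁ < p.1.2 * W p.1.1,
      ∃ (w : ℕ → Polynomial ℤ) (ν : ℤ), ν ≠ 0 ∧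
      ∀ j < n p.1.1, j / bs (n p.1.1) p.1.2 = p.2 / bs (n p.1.1) p.1.2 → ∀ i < s p.1.1, ∀ u < p.1.2 * W p.1.1,
      ∃ (κ : ℤ) (R : Polynomial ℤ), κ ≠ 0 ∧
        Polynomial.C κ * ((∑ k ∈ Finset.range (m p.1.1),
            w k * hmu (b p.1.1 k i u) (l p.1.1) (ro p.1.1 j) (μ p.1.1)) -
          if j = p.2 ∧ i = i₁ ∧ u = u₁ then Polynomial.C ν else 0) = M p.1.1 * R) ?_
      (hs.comp (Primrec.fst.comp Primrec.fst))
    have e3 : Primrec fun p : ((α × ℕ) × ℕ) × ℕ => p.1.1.1 := Primrec.fst.comp (Primrec.fst.comp Primrec.fst)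
    have e0 : Primrec fun p : ((α × ℕ) × ℕ) × ℕ => p.1.1.2 := Primrec.snd.comp (Primrec.fst.comp Primrec.fst)
    refine SR.all (P := fun (p : ((α × ℕ) × ℕ) × ℕ) u₁ =>
      ∃ (w : ℕ → Polynomial ℤ) (ν : ℤ), ν ≠ 0 ∧
      ∀ j < n p.1.1.1, j / bs (n p.1.1.1) p.1.1.2 = p.1.2 / bs (n p.1.1.1) p.1.1.2 → ∀ i < s p.1.1.1,
        ∀ u < p.1.1.2 * W p.1.1.1,
      ∃ (κ : ℤ) (R : Polynomial ℤ), κ ≠ 0 ∧
        Polynomial.C κ * ((∑ k ∈ Finset.range (m p.1.1.1),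
            w k * hmu (b p.1.1.1 k i u) (l p.1.1.1) (ro p.1.1.1 j) (μ p.1.1.1)) -
          if j = p.1.2 ∧ i = p.2 ∧ u = u₁ then Polynomial.C ν else 0) = M p.1.1.1 * R) ?_
      (Primrec.nat_mul.comp e0 (hW.comp e3))
    have d3 : Primrec fun p : (((α × ℕ) × ℕ) × ℕ) × ℕ => p.1.1.1.1 := e3.comp Primrec.fst
    exact sr_C (α := (((α × ℕ) × ℕ) × ℕ) × ℕ) (M := fun p => M p.1.1.1.1) (ro := fun p => ro p.1.1.1.1)
      (b := fun p => b p.1.1.1.1) (n := fun p => n p.1.1.1.1) (s := fun p => s p.1.1.1.1)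
      (W := fun p => W p.1.1.1.1) (m := fun p => m p.1.1.1.1) (l := fun p => l p.1.1.1.1)
      (i0 := fun p => p.1.1.1.2) (j0 := fun p => p.1.1.2) (i1 := fun p => p.1.2) (u1 := fun p => p.2)
      (μ := fun p => μ p.1.1.1.1) (hM.comp d3) (hro.comp (Primrec.pair (d3.comp Primrec.fst) Primrec.snd))
      (hb.comp (Primrec.pair (d3.comp Primrec.fst) Primrec.snd)) (hn.comp d3) (hs.comp d3) (hW.comp d3)
      (hm.comp d3) (hl.comp d3) (e0.comp Primrec.fst) (Primrec.snd.comp (Primrec.fst.comp Primrec.fst))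
      (Primrec.snd.comp Primrec.fst) Primrec.snd (hμ.comp d3)
  refine key.of_iff fun a => ⟨fun h i₀ hi h1 => h i₀ h1 (by omega), fun h i₀ h1 h4 => h i₀ (by omega) h1⟩

theorem sr_jets {q : α → Polynomial ℤ} {d : α → Dt} (hq : UC q) (hs : Primrec fun a => (d a).s)
    (hW : Primrec fun a => (d a).W) (hm : Primrec fun a => (d a).m) (hl : Primrec fun a => (d a).l)
    (hb : UC fun p : α × ℕ × ℕ × ℕ => (d p.1).b p.2.1 p.2.2.1 p.2.2.2) : SR fun a => Jets (q a) (d a) := by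
  unfold Jets
  refine SR.exU (P := fun a M => ∃ (μ ν : ℤ) (ro : ℕ → Polynomial ℤ) (Q : P2), 1 ≤ M.natDegree ∧ μ ≠ 0 ∧ ν ≠ 0 ∧
    MvPolynomial.C ν * ((∏ j ∈ Finset.range (q a).natDegree, (MvPolynomial.C μ * MvPolynomial.X 0 - emT (ro j))) -
      MvPolynomial.C (μ ^ (q a).natDegree) * H85.SA.em (q a)) = emT M * Q ∧
    ∀ i₀, 1 ≤ i₀ → i₀ ≤ 4 → ∀ j₀ < (q a).natDegree, ∀ i₁ < (d a).s, ∀ u₁ < i₀ * (d a).W,
      ∃ (w : ℕ → Polynomial ℤ) (ν' : ℤ), ν' ≠ 0 ∧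
        ∀ j < (q a).natDegree, j / bs (q a).natDegree i₀ = j₀ / bs (q a).natDegree i₀ → ∀ i < (d a).s, ∀ u < i₀ * (d a).W,
          ∃ (κ : ℤ) (R : Polynomial ℤ), κ ≠ 0 ∧
            Polynomial.C κ * ((∑ k ∈ Finset.range (d a).m, w k * hmu ((d a).b k i u) (d a).l (ro j) μ) -
              if j = j₀ ∧ i = i₁ ∧ u = u₁ then Polynomial.C ν' else 0) = M * R) ?_
  refine SR.exI (P := fun (p : α × Code) μ => ∃ (ν : ℤ) (ro : ℕ → Polynomial ℤ) (Q : P2),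
    1 ≤ (uni p.2).natDegree ∧ μ ≠ 0 ∧ ν ≠ 0 ∧
    MvPolynomial.C ν * ((∏ j ∈ Finset.range (q p.1).natDegree, (MvPolynomial.C μ * MvPolynomial.X 0 - emT (ro j))) -
      MvPolynomial.C (μ ^ (q p.1).natDegree) * H85.SA.em (q p.1)) = emT (uni p.2) * Q ∧
    ∀ i₀, 1 ≤ i₀ → i₀ ≤ 4 → ∀ j₀ < (q p.1).natDegree, ∀ i₁ < (d p.1).s, ∀ u₁ < i₀ * (d p.1).W,
      ∃ (w : ℕ → Polynomial ℤ) (ν' : ℤ), ν' ≠ 0 ∧
        ∀ j < (q p.1).natDegree, j / bs (q p.1).natDegree i₀ = j₀ / bs (q p.1).natDegree i₀ → ∀ i < (d p.1).s, ∀ u < i₀ * (d p.1).W,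
          ∃ (κ : ℤ) (R : Polynomial ℤ), κ ≠ 0 ∧
            Polynomial.C κ * ((∑ k ∈ Finset.range (d p.1).m, w k * hmu ((d p.1).b k i u) (d p.1).l (ro j) μ) -
              if j = j₀ ∧ i = i₁ ∧ u = u₁ then Polynomial.C ν' else 0) = uni p.2 * R) ?_
  refine SR.exI (P := fun (p : (α × Code) × (ℕ × ℕ)) ν => ∃ (ro : ℕ → Polynomial ℤ) (Q : P2),
    1 ≤ (uni p.1.2).natDegree ∧ iv p.2 ≠ 0 ∧ ν ≠ 0 ∧
    MvPolynomial.C ν * ((∏ j ∈ Finset.range (q p.1.1).natDegree, (MvPolynomial.C (iv p.2) * MvPolynomial.X 0 - emT (ro j))) -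
      MvPolynomial.C ((iv p.2) ^ (q p.1.1).natDegree) * H85.SA.em (q p.1.1)) = emT (uni p.1.2) * Q ∧
    ∀ i₀, 1 ≤ i₀ → i₀ ≤ 4 → ∀ j₀ < (q p.1.1).natDegree, ∀ i₁ < (d p.1.1).s, ∀ u₁ < i₀ * (d p.1.1).W,
      ∃ (w : ℕ → Polynomial ℤ) (ν' : ℤ), ν' ≠ 0 ∧
        ∀ j < (q p.1.1).natDegree, j / bs (q p.1.1).natDegree i₀ = j₀ / bs (q p.1.1).natDegree i₀ → ∀ i < (d p.1.1).s, ∀ u < i₀ * (d p.1.1).W,
          ∃ (κ : ℤ) (R : Polynomial ℤ), κ ≠ 0 ∧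
            Polynomial.C κ * ((∑ k ∈ Finset.range (d p.1.1).m, w k * hmu ((d p.1.1).b k i u) (d p.1.1).l (ro j) (iv p.2)) -
              if j = j₀ ∧ i = i₁ ∧ u = u₁ then Polynomial.C ν' else 0) = uni p.1.2 * R) ?_
  refine SR.exUf (P := fun (p : ((α × Code) × (ℕ × ℕ)) × (ℕ × ℕ)) ro => ∃ (Q : P2),
    1 ≤ (uni p.1.1.2).natDegree ∧ iv p.1.2 ≠ 0 ∧ iv p.2 ≠ 0 ∧
    MvPolynomial.C (iv p.2) * ((∏ j ∈ Finset.range (q p.1.1.1).natDegree, (MvPolynomial.C (iv p.1.2) * MvPolynomial.X 0 - emT (ro j))) -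
      MvPolynomial.C ((iv p.1.2) ^ (q p.1.1.1).natDegree) * H85.SA.em (q p.1.1.1)) = emT (uni p.1.1.2) * Q ∧
    ∀ i₀, 1 ≤ i₀ → i₀ ≤ 4 → ∀ j₀ < (q p.1.1.1).natDegree, ∀ i₁ < (d p.1.1.1).s, ∀ u₁ < i₀ * (d p.1.1.1).W,
      ∃ (w : ℕ → Polynomial ℤ) (ν' : ℤ), ν' ≠ 0 ∧
        ∀ j < (q p.1.1.1).natDegree, j / bs (q p.1.1.1).natDegree i₀ = j₀ / bs (q p.1.1.1).natDegree i₀ → ∀ i < (d p.1.1.1).s, ∀ u < i₀ * (d p.1.1.1).W,
          ∃ (κ : ℤ) (R : Polynomial ℤ), κ ≠ 0 ∧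
            Polynomial.C κ * ((∑ k ∈ Finset.range (d p.1.1.1).m, w k * hmu ((d p.1.1.1).b k i u) (d p.1.1.1).l (ro j) (iv p.1.2)) -
              if j = j₀ ∧ i = i₁ ∧ u = u₁ then Polynomial.C ν' else 0) = uni p.1.1.2 * R)
    (fun p => (q p.1.1.1).natDegree) ?_ ?_
  · rintro p f g hfg ⟨Q, h1, h2, h3, h4, h5⟩
    refine ⟨Q, h1, h2, h3, ?_, fun i₀ g1 g2 j₀ g3 i₁ g4 u₁ g5 => ?_⟩
    · rw [← h4]
      congr 2
      exact Finset.prod_congr rfl fun j hj => by rw [hfg j (Finset.mem_range.1 hj)]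
    · obtain ⟨w, ν', hν, k⟩ := h5 i₀ g1 g2 j₀ g3 i₁ g4 u₁ g5
      refine ⟨w, ν', hν, fun j hj k1 i k2 u k3 => ?_⟩
      rw [← hfg j hj]
      exact k j hj k1 i k2 u k3
  refine SR.exP (P := fun (p : (((α × Code) × (ℕ × ℕ)) × (ℕ × ℕ)) × List Code) Q =>
    1 ≤ (uni p.1.1.1.2).natDegree ∧ iv p.1.1.2 ≠ 0 ∧ iv p.1.2 ≠ 0 ∧
    MvPolynomial.C (iv p.1.2) * ((∏ j ∈ Finset.range (q p.1.1.1.1).natDegree, (MvPolynomial.C (iv p.1.1.2) * MvPolynomial.X 0 - emT (uni (nth p.2 j)))) -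
      MvPolynomial.C ((iv p.1.1.2) ^ (q p.1.1.1.1).natDegree) * H85.SA.em (q p.1.1.1.1)) = emT (uni p.1.1.1.2) * Q ∧
    ∀ i₀, 1 ≤ i₀ → i₀ ≤ 4 → ∀ j₀ < (q p.1.1.1.1).natDegree, ∀ i₁ < (d p.1.1.1.1).s, ∀ u₁ < i₀ * (d p.1.1.1.1).W,
      ∃ (w : ℕ → Polynomial ℤ) (ν' : ℤ), ν' ≠ 0 ∧
        ∀ j < (q p.1.1.1.1).natDegree, j / bs (q p.1.1.1.1).natDegree i₀ = j₀ / bs (q p.1.1.1.1).natDegree i₀ → ∀ i < (d p.1.1.1.1).s, ∀ u < i₀ * (d p.1.1.1.1).W,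
          ∃ (κ : ℤ) (R : Polynomial ℤ), κ ≠ 0 ∧
            Polynomial.C κ * ((∑ k ∈ Finset.range (d p.1.1.1.1).m, w k * hmu ((d p.1.1.1.1).b k i u) (d p.1.1.1.1).l (uni (nth p.2 j)) (iv p.1.1.2)) -
              if j = j₀ ∧ i = i₁ ∧ u = u₁ then Polynomial.C ν' else 0) = uni p.1.1.1.2 * R) ?_
  have ia : Primrec fun p : ((((α × Code) × (ℕ × ℕ)) × (ℕ × ℕ)) × List Code) × Code => p.1.1.1.1.1 :=
    Primrec.fst.comp (Primrec.fst.comp (Primrec.fst.comp (Primrec.fst.comp Primrec.fst)))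
  have iM : UC fun p : ((((α × Code) × (ℕ × ℕ)) × (ℕ × ℕ)) × List Code) × Code => uni p.1.1.1.1.2 :=
    UC.code (Primrec.snd.comp (Primrec.fst.comp (Primrec.fst.comp (Primrec.fst.comp Primrec.fst))))
  have iμ : IC fun p : ((((α × Code) × (ℕ × ℕ)) × (ℕ × ℕ)) × List Code) × Code => iv p.1.1.1.2 :=
    IC.code (Primrec.snd.comp (Primrec.fst.comp (Primrec.fst.comp Primrec.fst)))
  have iν : IC fun p : ((((α × Code) × (ℕ × ℕ)) × (ℕ × ℕ)) × List Code) × Code => iv p.1.1.2 :=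
    IC.code (Primrec.snd.comp (Primrec.fst.comp Primrec.fst))
  have iro : UC fun p : (((((α × Code) × (ℕ × ℕ)) × (ℕ × ℕ)) × List Code) × Code) × ℕ => uni (nth p.1.1.2 p.2) :=
    UC.code (primrec_nth.comp (Primrec.snd.comp (Primrec.fst.comp Primrec.fst)) Primrec.snd)
  have iq := hq.comp ia
  have iqd := iq.natDegree
  have h1 : PrimrecPred fun p : ((((α × Code) × (ℕ × ℕ)) × (ℕ × ℕ)) × List Code) × Code =>
      1 ≤ (uni p.1.1.1.1.2).natDegree := PrimrecRel.comp Primrec.nat_le (Primrec.const 1) iM.natDegree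
  have h2 := PC.prod (F := fun (p : ((((α × Code) × (ℕ × ℕ)) × (ℕ × ℕ)) × List Code) × Code) (j : ℕ) =>
      (MvPolynomial.C (iv p.1.1.1.2) * MvPolynomial.X 0 - emT (uni (nth p.1.2 j)) : P2))
      (((PC.C (iμ.comp Primrec.fst)).mul PC.X0).sub iro.emT) iqd
  have h3 : PC fun p : ((((α × Code) × (ℕ × ℕ)) × (ℕ × ℕ)) × List Code) × Code =>
      (MvPolynomial.C (iv p.1.1.1.2 ^ (q p.1.1.1.1.1).natDegree) : P2) := by
    have h := (PC.C iμ).pow iqd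
    simpa only [← MvPolynomial.C_pow] using h
  have h4 := ((PC.C iν).mul (h2.sub (h3.mul iq.em))).eq (iM.emT.mul (PC.code Primrec.snd))
  refine (SR.of_prim h1).and ((SR.of_prim (iμ.ne (IC.const 0))).and ((SR.of_prim (iν.ne (IC.const 0))).and
    ((SR.of_prim h4).and ?_)))
  exact sr_D (α := ((((α × Code) × (ℕ × ℕ)) × (ℕ × ℕ)) × List Code) × Code) (M := fun p => uni p.1.1.1.1.2)
    (ro := fun p j => uni (nth p.1.2 j)) (b := fun p => (d p.1.1.1.1.1).b) (n := fun p => (q p.1.1.1.1.1).natDegree)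
    (s := fun p => (d p.1.1.1.1.1).s) (W := fun p => (d p.1.1.1.1.1).W) (m := fun p => (d p.1.1.1.1.1).m)
    (l := fun p => (d p.1.1.1.1.1).l) (μ := fun p => iv p.1.1.1.2) iM iro
    (hb.comp (Primrec.pair (ia.comp Primrec.fst) Primrec.snd)) iqd (hs.comp ia) (hW.comp ia) (hm.comp ia)
    (hl.comp ia) iμ

end Pool.Agent.H99.SFA
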