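import Pool.Agent.H99.SFA.Jts
import Pool.Agent.H85.SB.Def

/-!
# [H99 SFA JtsP] THEOREM SF, phase 3, chapter K3: `JetsP` is recursively enumerable
-/

namespace Pool.Agent.H99.SFA

open Pool.Agent.H8.Siegel Pool.Agent.H69.AL Pool.Agent.H98.AL Pool.Agent.H85.SA Pool.Agent.H69.SFA
open Pool.Agent.H85.SB

variable {α : Type*} [Primcodable α]

theorem primrec_prf {r t k j : α → ℕ} (hr : Primrec r) (ht : Primrec t) (hk : Primrec k) (hj : Primrec j) :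
    Primrec fun a => prf (r a) (t a) (k a) (j a) := by
  have c0 (n : ℕ) : Primrec fun _ : α => n := Primrec.const n
  have e (f g : α → ℕ) (hf : Primrec f) (hg : Primrec g) : PrimrecPred fun a => f a = g a :=
    PrimrecRel.comp Primrec.eq hf hg
  have l (f g : α → ℕ) (hf : Primrec f) (hg : Primrec g) : PrimrecPred fun a => f a ≤ g a :=
    PrimrecRel.comp Primrec.nat_le hf hg
  have l' (f g : α → ℕ) (hf : Primrec f) (hg : Primrec g) : PrimrecPred fun a => f a < g a :=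
    PrimrecRel.comp Primrec.nat_lt hf hg
  have ad (f g : α → ℕ) (hf : Primrec f) (hg : Primrec g) : Primrec fun a => f a + g a := Primrec.nat_add.comp hf hg
  have sb (f g : α → ℕ) (hf : Primrec f) (hg : Primrec g) : Primrec fun a => f a - g a := Primrec.nat_sub.comp hf hg
  have ml (f g : α → ℕ) (hf : Primrec f) (hg : Primrec g) : Primrec fun a => f a * g a := Primrec.nat_mul.comp hf hg
  have md (f g : α → ℕ) (hf : Primrec f) (hg : Primrec g) : Primrec fun a => f a % g a := Primrec.nat_mod.comp hf hg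
  have k1 := ad _ _ hk (c0 1)
  have t2 := ml _ _ (c0 2) ht
  have k2 := ml _ _ (c0 2) hk
  unfold prf
  refine Primrec.ite ((e _ _ (md _ _ hr (c0 2)) (c0 1)).and (l' _ _ hj (c0 3)))
    (Primrec.ite (e _ _ hj (c0 0)) k1 (Primrec.ite (e _ _ hj (c0 1))
      (Primrec.ite (l _ _ hk ht) (ad _ _ (sb _ _ t2 k2) (c0 1)) (sb _ _ (ad _ _ (ml _ _ (c0 4) ht) (c0 2)) k2))
      (Primrec.ite (l _ _ hk ht) (ad _ _ (ad _ _ ht hk) (c0 1)) (sb _ _ hk ht))))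
    (Primrec.ite (e _ _ (md _ _ (ad _ _ hj hr) (c0 2)) (c0 0)) k1 (sb _ _ (ad _ _ t2 (c0 1)) hk))

/-- the conditions of one target -/
theorem sr_BP {M : α → Polynomial ℤ} {ro w : α → ℕ → Polynomial ℤ} {b : α → ℕ → ℕ → ℕ → Polynomial ℤ}
    {n t s m l k0 j0 i1 u1 : α → ℕ} {μ ν : α → ℤ} (hM : UC M) (hro : UC fun p : α × ℕ => ro p.1 p.2)
    (hw : UC fun p : α × ℕ => w p.1 p.2) (hb : UC fun p : α × ℕ × ℕ × ℕ => b p.1 p.2.1 p.2.2.1 p.2.2.2)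
    (hn : Primrec n) (ht : Primrec t) (hs : Primrec s) (hm : Primrec m) (hl : Primrec l) (hk0 : Primrec k0)
    (hj0 : Primrec j0) (hi1 : Primrec i1) (hu1 : Primrec u1) (hμ : IC μ) (hν : IC ν) :
    SR fun a => ∀ j < n a, ∀ i < s a, ∀ u < prf (n a) (t a) (k0 a) j,
      ∃ (κ : ℤ) (R : Polynomial ℤ), κ ≠ 0 ∧
        Polynomial.C κ * ((∑ k ∈ Finset.range (m a), w a k * hmu (b a k i u) (l a) (ro a j) (μ a)) -
          if j = j0 a ∧ i = i1 a ∧ u = u1 a then Polynomial.C (ν a) else 0) = M a * R := by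
  refine SR.all (P := fun a j => ∀ i < s a, ∀ u < prf (n a) (t a) (k0 a) j,
      ∃ (κ : ℤ) (R : Polynomial ℤ), κ ≠ 0 ∧
        Polynomial.C κ * ((∑ k ∈ Finset.range (m a), w a k * hmu (b a k i u) (l a) (ro a j) (μ a)) -
          if j = j0 a ∧ i = i1 a ∧ u = u1 a then Polynomial.C (ν a) else 0) = M a * R) ?_ hn
  refine SR.all (P := fun (p : α × ℕ) i => ∀ u < prf (n p.1) (t p.1) (k0 p.1) p.2,
      ∃ (κ : ℤ) (R : Polynomial ℤ), κ ≠ 0 ∧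
        Polynomial.C κ * ((∑ k ∈ Finset.range (m p.1), w p.1 k * hmu (b p.1 k i u) (l p.1) (ro p.1 p.2) (μ p.1)) -
          if p.2 = j0 p.1 ∧ i = i1 p.1 ∧ u = u1 p.1 then Polynomial.C (ν p.1) else 0) = M p.1 * R) ?_
    (hs.comp Primrec.fst)
  refine SR.all (P := fun (p : (α × ℕ) × ℕ) u =>
      ∃ (κ : ℤ) (R : Polynomial ℤ), κ ≠ 0 ∧
        Polynomial.C κ * ((∑ k ∈ Finset.range (m p.1.1),
            w p.1.1 k * hmu (b p.1.1 k p.2 u) (l p.1.1) (ro p.1.1 p.1.2) (μ p.1.1)) -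
          if p.1.2 = j0 p.1.1 ∧ p.2 = i1 p.1.1 ∧ u = u1 p.1.1 then Polynomial.C (ν p.1.1) else 0) = M p.1.1 * R) ?_
    (primrec_prf (hn.comp (Primrec.fst.comp Primrec.fst)) (ht.comp (Primrec.fst.comp Primrec.fst))
      (hk0.comp (Primrec.fst.comp Primrec.fst)) (Primrec.snd.comp Primrec.fst))
  have g3 : Primrec fun p : ((α × ℕ) × ℕ) × ℕ => p.1.1.1 := Primrec.fst.comp (Primrec.fst.comp Primrec.fst)
  have gj : Primrec fun p : ((α × ℕ) × ℕ) × ℕ => p.1.1.2 := Primrec.snd.comp (Primrec.fst.comp Primrec.fst)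
  have gi : Primrec fun p : ((α × ℕ) × ℕ) × ℕ => p.1.2 := Primrec.snd.comp Primrec.fst
  have gu : Primrec fun p : ((α × ℕ) × ℕ) × ℕ => p.2 := Primrec.snd
  have g4 : Primrec fun p : (((α × ℕ) × ℕ) × ℕ) × ℕ => p.1.1.1.1 := g3.comp Primrec.fst
  refine sr_A (α := ((α × ℕ) × ℕ) × ℕ) (M := fun p => M p.1.1.1) (ro := fun p => ro p.1.1.1 p.1.1.2)
    (w := fun p k => w p.1.1.1 k) (b := fun p k => b p.1.1.1 k p.1.2 p.2) (m := fun p => m p.1.1.1)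
    (l := fun p => l p.1.1.1) (μ := fun p => μ p.1.1.1) (ν := fun p => ν p.1.1.1)
    (c := fun p => p.1.1.2 = j0 p.1.1.1 ∧ p.1.2 = i1 p.1.1.1 ∧ p.2 = u1 p.1.1.1)
    (hM.comp g3) (hro.comp (Primrec.pair g3 gj)) (hw.comp (Primrec.pair g4 Primrec.snd)) ?_ (hm.comp g3)
    (hl.comp g3) (hμ.comp g3) (hν.comp g3) ?_
  · exact hb.comp (Primrec.pair g4 (Primrec.pair Primrec.snd (Primrec.pair (gi.comp Primrec.fst)
      (gu.comp Primrec.fst))))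
  · exact (PrimrecRel.comp Primrec.eq gj (hj0.comp g3)).and ((PrimrecRel.comp Primrec.eq gi (hi1.comp g3)).and
      (PrimrecRel.comp Primrec.eq gu (hu1.comp g3)))

/-- one target -/
theorem sr_CP {M : α → Polynomial ℤ} {ro : α → ℕ → Polynomial ℤ} {b : α → ℕ → ℕ → ℕ → Polynomial ℤ}
    {n t s m l k0 j0 i1 u1 : α → ℕ} {μ : α → ℤ} (hM : UC M) (hro : UC fun p : α × ℕ => ro p.1 p.2)
    (hb : UC fun p : α × ℕ × ℕ × ℕ => b p.1 p.2.1 p.2.2.1 p.2.2.2)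
    (hn : Primrec n) (ht : Primrec t) (hs : Primrec s) (hm : Primrec m) (hl : Primrec l) (hk0 : Primrec k0)
    (hj0 : Primrec j0) (hi1 : Primrec i1) (hu1 : Primrec u1) (hμ : IC μ) :
    SR fun a => ∃ (w : ℕ → Polynomial ℤ) (ν : ℤ), ν ≠ 0 ∧
      ∀ j < n a, ∀ i < s a, ∀ u < prf (n a) (t a) (k0 a) j,
      ∃ (κ : ℤ) (R : Polynomial ℤ), κ ≠ 0 ∧
        Polynomial.C κ * ((∑ k ∈ Finset.range (m a), w k * hmu (b a k i u) (l a) (ro a j) (μ a)) -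
          if j = j0 a ∧ i = i1 a ∧ u = u1 a then Polynomial.C ν else 0) = M a * R := by
  refine SR.exUf (P := fun a w => ∃ (ν : ℤ), ν ≠ 0 ∧
      ∀ j < n a, ∀ i < s a, ∀ u < prf (n a) (t a) (k0 a) j,
      ∃ (κ : ℤ) (R : Polynomial ℤ), κ ≠ 0 ∧
        Polynomial.C κ * ((∑ k ∈ Finset.range (m a), w k * hmu (b a k i u) (l a) (ro a j) (μ a)) -
          if j = j0 a ∧ i = i1 a ∧ u = u1 a then Polynomial.C ν else 0) = M a * R) m ?_ ?_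
  · rintro a f g hfg ⟨ν, hν, h⟩
    refine ⟨ν, hν, fun j hj i hi u hu => ?_⟩
    obtain ⟨κ, R, hκ, e⟩ := h j hj i hi u hu
    refine ⟨κ, R, hκ, ?_⟩
    rw [← e]
    congr 2
    exact Finset.sum_congr rfl fun k hk => by rw [hfg k (Finset.mem_range.1 hk)]
  refine SR.exI (P := fun (p : α × List Code) ν => ν ≠ 0 ∧
      ∀ j < n p.1, ∀ i < s p.1, ∀ u < prf (n p.1) (t p.1) (k0 p.1) j,
      ∃ (κ : ℤ) (R : Polynomial ℤ), κ ≠ 0 ∧
        Polynomial.C κ * ((∑ k ∈ Finset.range (m p.1),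
            uni (nth p.2 k) * hmu (b p.1 k i u) (l p.1) (ro p.1 j) (μ p.1)) -
          if j = j0 p.1 ∧ i = i1 p.1 ∧ u = u1 p.1 then Polynomial.C ν else 0) = M p.1 * R) ?_
  have f2 : Primrec fun p : (α × List Code) × (ℕ × ℕ) => p.1.1 := Primrec.fst.comp Primrec.fst
  have fν : IC fun p : (α × List Code) × (ℕ × ℕ) => iv p.2 := IC.code Primrec.snd
  refine (SR.of_prim (fν.ne (IC.const 0))).and ?_
  refine sr_BP (α := (α × List Code) × (ℕ × ℕ)) (M := fun p => M p.1.1) (ro := fun p => ro p.1.1)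
    (w := fun p k => uni (nth p.1.2 k)) (b := fun p => b p.1.1) (n := fun p => n p.1.1) (t := fun p => t p.1.1)
    (s := fun p => s p.1.1) (m := fun p => m p.1.1) (l := fun p => l p.1.1) (k0 := fun p => k0 p.1.1)
    (j0 := fun p => j0 p.1.1) (i1 := fun p => i1 p.1.1) (u1 := fun p => u1 p.1.1) (μ := fun p => μ p.1.1)
    (ν := fun p => iv p.2)
    (hM.comp f2) (hro.comp (Primrec.pair (f2.comp Primrec.fst) Primrec.snd)) ?_
    (hb.comp (Primrec.pair (f2.comp Primrec.fst) Primrec.snd)) (hn.comp f2) (ht.comp f2) (hs.comp f2)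
    (hm.comp f2) (hl.comp f2) (hk0.comp f2) (hj0.comp f2) (hi1.comp f2) (hu1.comp f2) (hμ.comp f2) fν
  exact UC.code (primrec_nth.comp (Primrec.snd.comp (Primrec.fst.comp Primrec.fst)) Primrec.snd)

/-- all targets -/
theorem sr_DP {M : α → Polynomial ℤ} {ro : α → ℕ → Polynomial ℤ} {b : α → ℕ → ℕ → ℕ → Polynomial ℤ}
    {n t s m l : α → ℕ} {μ : α → ℤ} (hM : UC M) (hro : UC fun p : α × ℕ => ro p.1 p.2)
    (hb : UC fun p : α × ℕ × ℕ × ℕ => b p.1 p.2.1 p.2.2.1 p.2.2.2)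
    (hn : Primrec n) (ht : Primrec t) (hs : Primrec s) (hm : Primrec m) (hl : Primrec l) (hμ : IC μ) :
    SR fun a => ∀ k₀ < 2 * t a + 1, ∀ j₀ < n a, ∀ i₁ < s a, ∀ u₁ < prf (n a) (t a) k₀ j₀,
      ∃ (w : ℕ → Polynomial ℤ) (ν : ℤ), ν ≠ 0 ∧
      ∀ j < n a, ∀ i < s a, ∀ u < prf (n a) (t a) k₀ j,
      ∃ (κ : ℤ) (R : Polynomial ℤ), κ ≠ 0 ∧
        Polynomial.C κ * ((∑ k ∈ Finset.range (m a), w k * hmu (b a k i u) (l a) (ro a j) (μ a)) -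
          if j = j₀ ∧ i = i₁ ∧ u = u₁ then Polynomial.C ν else 0) = M a * R := by
  refine SR.all (P := fun a k₀ => ∀ j₀ < n a, ∀ i₁ < s a, ∀ u₁ < prf (n a) (t a) k₀ j₀,
      ∃ (w : ℕ → Polynomial ℤ) (ν : ℤ), ν ≠ 0 ∧
      ∀ j < n a, ∀ i < s a, ∀ u < prf (n a) (t a) k₀ j,
      ∃ (κ : ℤ) (R : Polynomial ℤ), κ ≠ 0 ∧
        Polynomial.C κ * ((∑ k ∈ Finset.range (m a), w k * hmu (b a k i u) (l a) (ro a j) (μ a)) -
          if j = j₀ ∧ i = i₁ ∧ u = u₁ then Polynomial.C ν else 0) = M a * R) ?_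
    (Primrec.nat_add.comp (Primrec.nat_mul.comp (Primrec.const 2) ht) (Primrec.const 1))
  refine SR.all (P := fun (p : α × ℕ) j₀ => ∀ i₁ < s p.1, ∀ u₁ < prf (n p.1) (t p.1) p.2 j₀,
      ∃ (w : ℕ → Polynomial ℤ) (ν : ℤ), ν ≠ 0 ∧
      ∀ j < n p.1, ∀ i < s p.1, ∀ u < prf (n p.1) (t p.1) p.2 j,
      ∃ (κ : ℤ) (R : Polynomial ℤ), κ ≠ 0 ∧
        Polynomial.C κ * ((∑ k ∈ Finset.range (m p.1), w k * hmu (b p.1 k i u) (l p.1) (ro p.1 j) (μ p.1)) -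
          if j = j₀ ∧ i = i₁ ∧ u = u₁ then Polynomial.C ν else 0) = M p.1 * R) ?_ (hn.comp Primrec.fst)
  refine SR.all (P := fun (p : (α × ℕ) × ℕ) i₁ => ∀ u₁ < prf (n p.1.1) (t p.1.1) p.1.2 p.2,
      ∃ (w : ℕ → Polynomial ℤ) (ν : ℤ), ν ≠ 0 ∧
      ∀ j < n p.1.1, ∀ i < s p.1.1, ∀ u < prf (n p.1.1) (t p.1.1) p.1.2 j,
      ∃ (κ : ℤ) (R : Polynomial ℤ), κ ≠ 0 ∧
        Polynomial.C κ * ((∑ k ∈ Finset.range (m p.1.1),
            w k * hmu (b p.1.1 k i u) (l p.1.1) (ro p.1.1 j) (μ p.1.1)) -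
          if j = p.2 ∧ i = i₁ ∧ u = u₁ then Polynomial.C ν else 0) = M p.1.1 * R) ?_
      (hs.comp (Primrec.fst.comp Primrec.fst))
  have e3 : Primrec fun p : ((α × ℕ) × ℕ) × ℕ => p.1.1.1 := Primrec.fst.comp (Primrec.fst.comp Primrec.fst)
  have e0 : Primrec fun p : ((α × ℕ) × ℕ) × ℕ => p.1.1.2 := Primrec.snd.comp (Primrec.fst.comp Primrec.fst)
  refine SR.all (P := fun (p : ((α × ℕ) × ℕ) × ℕ) u₁ =>
      ∃ (w : ℕ → Polynomial ℤ) (ν : ℤ), ν ≠ 0 ∧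
      ∀ j < n p.1.1.1, ∀ i < s p.1.1.1, ∀ u < prf (n p.1.1.1) (t p.1.1.1) p.1.1.2 j,
      ∃ (κ : ℤ) (R : Polynomial ℤ), κ ≠ 0 ∧
        Polynomial.C κ * ((∑ k ∈ Finset.range (m p.1.1.1),
            w k * hmu (b p.1.1.1 k i u) (l p.1.1.1) (ro p.1.1.1 j) (μ p.1.1.1)) -
          if j = p.1.2 ∧ i = p.2 ∧ u = u₁ then Polynomial.C ν else 0) = M p.1.1.1 * R) ?_
      (primrec_prf (hn.comp e3) (ht.comp e3) e0 (Primrec.snd.comp Primrec.fst))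
  have d3 : Primrec fun p : (((α × ℕ) × ℕ) × ℕ) × ℕ => p.1.1.1.1 := e3.comp Primrec.fst
  exact sr_CP (α := (((α × ℕ) × ℕ) × ℕ) × ℕ) (M := fun p => M p.1.1.1.1) (ro := fun p => ro p.1.1.1.1)
      (b := fun p => b p.1.1.1.1) (n := fun p => n p.1.1.1.1) (t := fun p => t p.1.1.1.1) (s := fun p => s p.1.1.1.1)
      (m := fun p => m p.1.1.1.1) (l := fun p => l p.1.1.1.1)
      (k0 := fun p => p.1.1.1.2) (j0 := fun p => p.1.1.2) (i1 := fun p => p.1.2) (u1 := fun p => p.2)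
      (μ := fun p => μ p.1.1.1.1) (hM.comp d3) (hro.comp (Primrec.pair (d3.comp Primrec.fst) Primrec.snd))
      (hb.comp (Primrec.pair (d3.comp Primrec.fst) Primrec.snd)) (hn.comp d3) (ht.comp d3) (hs.comp d3)
      (hm.comp d3) (hl.comp d3) (e0.comp Primrec.fst) (Primrec.snd.comp (Primrec.fst.comp Primrec.fst))
      (Primrec.snd.comp Primrec.fst) Primrec.snd (hμ.comp d3)

theorem sr_jetsP {q : α → Polynomial ℤ} {t : α → ℕ} {d : α → Dt} (hq : UC q) (ht : Primrec t)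
    (hs : Primrec fun a => (d a).s) (hm : Primrec fun a => (d a).m) (hl : Primrec fun a => (d a).l)
    (hb : UC fun p : α × ℕ × ℕ × ℕ => (d p.1).b p.2.1 p.2.2.1 p.2.2.2) :
    SR fun a => JetsP (q a) (t a) (d a) := by
  unfold JetsP
  refine SR.exU (P := fun a M => ∃ (μ ν : ℤ) (ro : ℕ → Polynomial ℤ) (Q : P2), 1 ≤ M.natDegree ∧ μ ≠ 0 ∧ ν ≠ 0 ∧
    MvPolynomial.C ν * (MvPolynomial.C (q a).leadingCoeff *
      (∏ j ∈ Finset.range (q a).natDegree, (MvPolynomial.C μ * MvPolynomial.X 0 - emT (ro j))) -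
      MvPolynomial.C (μ ^ (q a).natDegree) * H85.SA.em (q a)) = emT M * Q ∧
    ∀ k < 2 * t a + 1, ∀ j₀ < (q a).natDegree, ∀ i₁ < (d a).s, ∀ u₁ < prf (q a).natDegree (t a) k j₀,
      ∃ (w : ℕ → Polynomial ℤ) (ν' : ℤ), ν' ≠ 0 ∧
        ∀ j < (q a).natDegree, ∀ i < (d a).s, ∀ u < prf (q a).natDegree (t a) k j,
          ∃ (κ : ℤ) (R : Polynomial ℤ), κ ≠ 0 ∧
            Polynomial.C κ * ((∑ k' ∈ Finset.range (d a).m, w k' * hmu ((d a).b k' i u) (d a).l (ro j) μ) -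
              if j = j₀ ∧ i = i₁ ∧ u = u₁ then Polynomial.C ν' else 0) = M * R) ?_
  refine SR.exI (P := fun (p : α × Code) μ => ∃ (ν : ℤ) (ro : ℕ → Polynomial ℤ) (Q : P2),
    1 ≤ (uni p.2).natDegree ∧ μ ≠ 0 ∧ ν ≠ 0 ∧
    MvPolynomial.C ν * (MvPolynomial.C (q p.1).leadingCoeff *
      (∏ j ∈ Finset.range (q p.1).natDegree, (MvPolynomial.C μ * MvPolynomial.X 0 - emT (ro j))) -
      MvPolynomial.C (μ ^ (q p.1).natDegree) * H85.SA.em (q p.1)) = emT (uni p.2) * Q ∧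
    ∀ k < 2 * t p.1 + 1, ∀ j₀ < (q p.1).natDegree, ∀ i₁ < (d p.1).s, ∀ u₁ < prf (q p.1).natDegree (t p.1) k j₀,
      ∃ (w : ℕ → Polynomial ℤ) (ν' : ℤ), ν' ≠ 0 ∧
        ∀ j < (q p.1).natDegree, ∀ i < (d p.1).s, ∀ u < prf (q p.1).natDegree (t p.1) k j,
          ∃ (κ : ℤ) (R : Polynomial ℤ), κ ≠ 0 ∧
            Polynomial.C κ * ((∑ k' ∈ Finset.range (d p.1).m, w k' * hmu ((d p.1).b k' i u) (d p.1).l (ro j) μ) -
              if j = j₀ ∧ i = i₁ ∧ u = u₁ then Polynomial.C ν' else 0) = uni p.2 * R) ?_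
  refine SR.exI (P := fun (p : (α × Code) × (ℕ × ℕ)) ν => ∃ (ro : ℕ → Polynomial ℤ) (Q : P2),
    1 ≤ (uni p.1.2).natDegree ∧ iv p.2 ≠ 0 ∧ ν ≠ 0 ∧
    MvPolynomial.C ν * (MvPolynomial.C (q p.1.1).leadingCoeff *
      (∏ j ∈ Finset.range (q p.1.1).natDegree, (MvPolynomial.C (iv p.2) * MvPolynomial.X 0 - emT (ro j))) -
      MvPolynomial.C ((iv p.2) ^ (q p.1.1).natDegree) * H85.SA.em (q p.1.1)) = emT (uni p.1.2) * Q ∧
    ∀ k < 2 * t p.1.1 + 1, ∀ j₀ < (q p.1.1).natDegree, ∀ i₁ < (d p.1.1).s,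
      ∀ u₁ < prf (q p.1.1).natDegree (t p.1.1) k j₀,
      ∃ (w : ℕ → Polynomial ℤ) (ν' : ℤ), ν' ≠ 0 ∧
        ∀ j < (q p.1.1).natDegree, ∀ i < (d p.1.1).s, ∀ u < prf (q p.1.1).natDegree (t p.1.1) k j,
          ∃ (κ : ℤ) (R : Polynomial ℤ), κ ≠ 0 ∧
            Polynomial.C κ * ((∑ k' ∈ Finset.range (d p.1.1).m,
                w k' * hmu ((d p.1.1).b k' i u) (d p.1.1).l (ro j) (iv p.2)) -
              if j = j₀ ∧ i = i₁ ∧ u = u₁ then Polynomial.C ν' else 0) = uni p.1.2 * R) ?_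
  refine SR.exUf (P := fun (p : ((α × Code) × (ℕ × ℕ)) × (ℕ × ℕ)) ro => ∃ (Q : P2),
    1 ≤ (uni p.1.1.2).natDegree ∧ iv p.1.2 ≠ 0 ∧ iv p.2 ≠ 0 ∧
    MvPolynomial.C (iv p.2) * (MvPolynomial.C (q p.1.1.1).leadingCoeff *
      (∏ j ∈ Finset.range (q p.1.1.1).natDegree, (MvPolynomial.C (iv p.1.2) * MvPolynomial.X 0 - emT (ro j))) -
      MvPolynomial.C ((iv p.1.2) ^ (q p.1.1.1).natDegree) * H85.SA.em (q p.1.1.1)) = emT (uni p.1.1.2) * Q ∧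
    ∀ k < 2 * t p.1.1.1 + 1, ∀ j₀ < (q p.1.1.1).natDegree, ∀ i₁ < (d p.1.1.1).s,
      ∀ u₁ < prf (q p.1.1.1).natDegree (t p.1.1.1) k j₀,
      ∃ (w : ℕ → Polynomial ℤ) (ν' : ℤ), ν' ≠ 0 ∧
        ∀ j < (q p.1.1.1).natDegree, ∀ i < (d p.1.1.1).s, ∀ u < prf (q p.1.1.1).natDegree (t p.1.1.1) k j,
          ∃ (κ : ℤ) (R : Polynomial ℤ), κ ≠ 0 ∧
            Polynomial.C κ * ((∑ k' ∈ Finset.range (d p.1.1.1).m,
                w k' * hmu ((d p.1.1.1).b k' i u) (d p.1.1.1).l (ro j) (iv p.1.2)) -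
              if j = j₀ ∧ i = i₁ ∧ u = u₁ then Polynomial.C ν' else 0) = uni p.1.1.2 * R)
    (fun p => (q p.1.1.1).natDegree) ?_ ?_
  · rintro p f g hfg ⟨Q, h1, h2, h3, h4, h5⟩
    refine ⟨Q, h1, h2, h3, ?_, fun k g2 j₀ g3 i₁ g4 u₁ g5 => ?_⟩
    · rw [← h4]
      congr 3
      exact Finset.prod_congr rfl fun j hj => by rw [hfg j (Finset.mem_range.1 hj)]
    · obtain ⟨w, ν', hν, k'⟩ := h5 k g2 j₀ g3 i₁ g4 u₁ g5
      refine ⟨w, ν', hν, fun j hj i k2 u k3 => ?_⟩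
      rw [← hfg j hj]
      exact k' j hj i k2 u k3
  refine SR.exP (P := fun (p : (((α × Code) × (ℕ × ℕ)) × (ℕ × ℕ)) × List Code) Q =>
    1 ≤ (uni p.1.1.1.2).natDegree ∧ iv p.1.1.2 ≠ 0 ∧ iv p.1.2 ≠ 0 ∧
    MvPolynomial.C (iv p.1.2) * (MvPolynomial.C (q p.1.1.1.1).leadingCoeff *
      (∏ j ∈ Finset.range (q p.1.1.1.1).natDegree, (MvPolynomial.C (iv p.1.1.2) * MvPolynomial.X 0 - emT (uni (nth p.2 j)))) -
      MvPolynomial.C ((iv p.1.1.2) ^ (q p.1.1.1.1).natDegree) * H85.SA.em (q p.1.1.1.1)) = emT (uni p.1.1.1.2) * Q ∧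
    ∀ k < 2 * t p.1.1.1.1 + 1, ∀ j₀ < (q p.1.1.1.1).natDegree, ∀ i₁ < (d p.1.1.1.1).s,
      ∀ u₁ < prf (q p.1.1.1.1).natDegree (t p.1.1.1.1) k j₀,
      ∃ (w : ℕ → Polynomial ℤ) (ν' : ℤ), ν' ≠ 0 ∧
        ∀ j < (q p.1.1.1.1).natDegree, ∀ i < (d p.1.1.1.1).s, ∀ u < prf (q p.1.1.1.1).natDegree (t p.1.1.1.1) k j,
          ∃ (κ : ℤ) (R : Polynomial ℤ), κ ≠ 0 ∧
            Polynomial.C κ * ((∑ k' ∈ Finset.range (d p.1.1.1.1).m,
                w k' * hmu ((d p.1.1.1.1).b k' i u) (d p.1.1.1.1).l (uni (nth p.2 j)) (iv p.1.1.2)) -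
              if j = j₀ ∧ i = i₁ ∧ u = u₁ then Polynomial.C ν' else 0) = uni p.1.1.1.2 * R) ?_
  have ia : Primrec fun p : ((((α × Code) × (ℕ × ℕ)) × (ℕ × ℕ)) × List Code) × Code => p.1.1.1.1.1 :=
    Primrec.fst.comp (Primrec.fst.comp (Primrec.fst.comp (Primrec.fst.comp Primrec.fst)))
  have iM : UC fun p : ((((α × Code) × (ℕ × ℕ)) × (ℕ × ℕ)) × List Code) × Code => uni p.1.1.1.1.2 :=
    UC.code (Primrec.snd.comp (Primrec.fst.comp (Primrec.fst.comp (Primrec.fst.comp Primrec.fst))))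
  have iμ : IC fun p : ((((α × Code) × (ℕ × ℕ)) × (ℕ × ℕ)) × List Code) × Code => iv p.1.1.1.2 :=
    IC.code (Primrec.snd.comp (Primrec.fst.comp (Primrec.fst.comp Primrec.fst)))
  have iν : IC fun p : ((((α × Code) × (ℕ × ℕ)) × (ℕ × ℕ)) × List Code) × Code => iv p.1.1.2 :=
    IC.code (Primrec.snd.comp (Primrec.fst.comp Primrec.fst))
  have iro : UC fun p : (((((α × Code) × (ℕ × ℕ)) × (ℕ × ℕ)) × List Code) × Code) × ℕ => uni (nth p.1.1.2 p.2) :=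
    UC.code (primrec_nth.comp (Primrec.snd.comp (Primrec.fst.comp Primrec.fst)) Primrec.snd)
  have iq := hq.comp ia
  have iqd := iq.natDegree
  have iqc : IC fun p : ((((α × Code) × (ℕ × ℕ)) × (ℕ × ℕ)) × List Code) × Code =>
      (q p.1.1.1.1.1).leadingCoeff := iq.coeff iqd
  have h1 : PrimrecPred fun p : ((((α × Code) × (ℕ × ℕ)) × (ℕ × ℕ)) × List Code) × Code =>
      1 ≤ (uni p.1.1.1.1.2).natDegree := PrimrecRel.comp Primrec.nat_le (Primrec.const 1) iM.natDegree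
  have h2 := PC.prod (F := fun (p : ((((α × Code) × (ℕ × ℕ)) × (ℕ × ℕ)) × List Code) × Code) (j : ℕ) =>
      (MvPolynomial.C (iv p.1.1.1.2) * MvPolynomial.X 0 - emT (uni (nth p.1.2 j)) : P2))
      (((PC.C (iμ.comp Primrec.fst)).mul PC.X0).sub iro.emT) iqd
  have h3 : PC fun p : ((((α × Code) × (ℕ × ℕ)) × (ℕ × ℕ)) × List Code) × Code =>
      (MvPolynomial.C (iv p.1.1.1.2 ^ (q p.1.1.1.1.1).natDegree) : P2) := by
    have h := (PC.C iμ).pow iqd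
    simpa only [← MvPolynomial.C_pow] using h
  have h4 := ((PC.C iν).mul (((PC.C iqc).mul h2).sub (h3.mul iq.em))).eq (iM.emT.mul (PC.code Primrec.snd))
  refine (SR.of_prim h1).and ((SR.of_prim (iμ.ne (IC.const 0))).and ((SR.of_prim (iν.ne (IC.const 0))).and
    ((SR.of_prim h4).and ?_)))
  exact sr_DP (α := ((((α × Code) × (ℕ × ℕ)) × (ℕ × ℕ)) × List Code) × Code) (M := fun p => uni p.1.1.1.1.2)
    (ro := fun p j => uni (nth p.1.2 j)) (b := fun p => (d p.1.1.1.1.1).b) (n := fun p => (q p.1.1.1.1.1).natDegree)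
    (t := fun p => t p.1.1.1.1.1) (s := fun p => (d p.1.1.1.1.1).s) (m := fun p => (d p.1.1.1.1.1).m)
    (l := fun p => (d p.1.1.1.1.1).l) (μ := fun p => iv p.1.1.1.2) iM iro
    (hb.comp (Primrec.pair (ia.comp Primrec.fst) Primrec.snd)) iqd (ht.comp ia) (hs.comp ia) (hm.comp ia)
    (hl.comp ia) iμ

end Pool.Agent.H99.SFA
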