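import Pool.Agent.H69.SFA.Pc
import Pool.Agent.H85.SA.Irb

/-!
# [H99 SFA Irr] THEOREM SF, clause (4): irreducibility of a monic polynomial is a primitive recursive predicate
-/

namespace Pool.Agent.H99.SFA

open Pool.Agent.H8.Siegel Pool.Agent.H69.AL Pool.Agent.H98.AL Pool.Agent.H85.SA Pool.Agent.H69.SFA

variable {α : Type*} [Primcodable α]

/-- the family `dg` -/
theorem uc_dg {r Q w : α → ℕ} (hr : Primrec r) (hQ : Primrec Q) (hw : Primrec w) :
    UC fun a => dg (r a) (Q a) (w a) := by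
  have hb : Primrec fun a => 2 * Q a + 1 := Primrec.succ.comp (Primrec.nat_mul.comp (Primrec.const 2) hQ)
  have h1 : Primrec fun p : α × ℕ => w p.1 / (2 * Q p.1 + 1) ^ p.2 % (2 * Q p.1 + 1) :=
    Primrec.nat_mod.comp (Primrec.nat_div.comp (hw.comp Primrec.fst)
      (primrec_pow.comp (hb.comp Primrec.fst) Primrec.snd)) (hb.comp Primrec.fst)
  exact UC.sum (F := fun a i => Polynomial.C (((w a / (2 * Q a + 1) ^ i % (2 * Q a + 1) : ℕ) : ℤ) - Q a) *
    Polynomial.X ^ i)
    ((UC.C ((IC.nat h1).sub (IC.nat (hQ.comp Primrec.fst)))).mul (UC.X.pow Primrec.snd)) hr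

theorem sr_irr {q : α → Polynomial ℤ} (hq : UC q) : PrimrecPred fun a => (q a).Monic ∧ Irreducible (q a) := by
  classical
  have hr := hq.natDegree
  have hS : Primrec fun a => ∑ i ∈ Finset.range ((q a).natDegree + 1), ((q a).coeff i).natAbs :=
    primrec_sumN (f := fun a i => ((q a).coeff i).natAbs)
      (((hq.comp Primrec.fst).coeff Primrec.snd).natAbs) (Primrec.succ.comp hr)
  obtain ⟨Q, hQd⟩ : ∃ Q : α → ℕ, Q = fun a => 2 ^ (q a).natDegree *
    ∑ i ∈ Finset.range ((q a).natDegree + 1), ((q a).coeff i).natAbs := ⟨_, rfl⟩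
  have hQ : Primrec Q := by
    rw [hQd]
    exact Primrec.nat_mul.comp (primrec_pow.comp (Primrec.const 2) hr) hS
  have hN : Primrec fun a => (2 * Q a + 1) ^ (q a).natDegree :=
    primrec_pow.comp (Primrec.succ.comp (Primrec.nat_mul.comp (Primrec.const 2) hQ)) hr
  have h1 : PrimrecPred fun a => (q a).coeff (q a).natDegree = 1 := (hq.coeff hr).eq (IC.const 1)
  have h2 : PrimrecPred fun a => 1 ≤ (q a).natDegree := PrimrecRel.comp Primrec.nat_le (Primrec.const 1) hr
  have h3 : PrimrecPred fun a => ∀ w < (2 * Q a + 1) ^ (q a).natDegree, ∀ w' < (2 * Q a + 1) ^ (q a).natDegree,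
      dg (q a).natDegree (Q a) w * dg (q a).natDegree (Q a) w' ≠ q a := by
    refine primrec_all (R := fun a w => ∀ w' < (2 * Q a + 1) ^ (q a).natDegree,
      dg (q a).natDegree (Q a) w * dg (q a).natDegree (Q a) w' ≠ q a) ?_ hN
    refine primrec_all (R := fun (p : α × ℕ) w' =>
      dg (q p.1).natDegree (Q p.1) p.2 * dg (q p.1).natDegree (Q p.1) w' ≠ q p.1) ?_ (hN.comp Primrec.fst)
    have i0 : Primrec fun p : (α × ℕ) × ℕ => p.1.1 := Primrec.fst.comp Primrec.fst
    exact (((uc_dg (hr.comp i0) (hQ.comp i0) (Primrec.snd.comp Primrec.fst)).mul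
      (uc_dg (hr.comp i0) (hQ.comp i0) Primrec.snd)).eq (hq.comp i0)).not
  refine (h1.and (h2.and h3)).of_eq fun a => ?_
  have hm : (q a).coeff (q a).natDegree = 1 ↔ (q a).Monic := Iff.rfl
  rw [hm]
  refine and_congr_right fun hmo => ?_
  refine (irr_iff hmo ?_).symm
  rw [hQd]
  push_cast
  rfl

end Pool.Agent.H99.SFA
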